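import Pool.Agent.N728.SP.Def

/-!
# Task TEL of the project SP: from the tent weight to the logarithmic weight
-/

set_option autoImplicit false

namespace Pool.Agent.N457.SP

open Finset Pool.Agent.H378R2 Pool.Agent.N728.SP

/-- telescoping of a sequence with small second differences -/
lemma tele (a : ℕ → ℂ) (k : ℕ) (P E : ℝ) (hP : 0 ≤ P) (hE : 0 ≤ E)
    (h1 : ∀ j, j + 2 ≤ k + 1 → ‖a j - 2 * a (j + 1) + a (j + 2)‖ ≤ P)
    (hD : ‖a k - a (k + 1)‖ ≤ E) :
    ‖a 0 - a (k + 1)‖ ≤ (k + 1 : ℕ) * (E + (k + 1 : ℕ) * P) := by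
  have h2 : ∀ i, i ≤ k → ‖a (k - i) - a (k - i + 1)‖ ≤ E + i * P := by
    intro i
    induction i with
    | zero =>
      intro _
      simpa using hD
    | succ i ih =>
      intro hi
      have h3 := ih (by omega)
      obtain ⟨j, hj⟩ : ∃ j, k - (i + 1) = j := ⟨_, rfl⟩
      have e1 : k - i = j + 1 := by omega
      rw [e1] at h3
      rw [hj]
      have h4 := h1 j (by omega)
      have e2 : a j - a (j + 1) = (a j - 2 * a (j + 1) + a (j + 2)) + (a (j + 1) - a (j + 1 + 1)) := by
        ring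
      rw [e2]
      refine (norm_add_le _ _).trans ?_
      push_cast
      linarith
  have h3 : ∀ j ∈ Finset.range (k + 1), ‖a j - a (j + 1)‖ ≤ E + (k + 1 : ℕ) * P := by
    intro j hj
    have hj' : j ≤ k := by
      rw [Finset.mem_range] at hj
      omega
    have h4 := h2 (k - j) (by omega)
    have e1 : k - (k - j) = j := by omega
    rw [e1] at h4
    refine h4.trans ?_
    have h5 : ((k - j : ℕ) : ℝ) ≤ ((k + 1 : ℕ) : ℝ) := by exact_mod_cast (show k - j ≤ k + 1 by omega)
    have := mul_le_mul_of_nonneg_right h5 hP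
    linarith
  have h4 : a 0 - a (k + 1) = ∑ j ∈ Finset.range (k + 1), (a j - a (j + 1)) := by
    rw [Finset.sum_range_sub']
  rw [h4]
  refine (norm_sum_le _ _).trans ?_
  refine (Finset.sum_le_sum h3).trans ?_
  rw [Finset.sum_const, Finset.card_range, nsmul_eq_mul]

/-- `PL` as a sum over a longer range -/
lemma PL_eq (c : ℕ → ℂ) (x y : ℝ) (hx : 0 < x) (hxy : x ≤ y) :
    PL c x = ∑ n ∈ Icc 1 ⌊y⌋₊, c n * ((max 0 (Real.log (x / n)) : ℝ) : ℂ) := by
  unfold PL
  have hsub : Icc 1 ⌊x⌋₊ ⊆ Icc 1 ⌊y⌋₊ := Finset.Icc_subset_Icc_right (Nat.floor_le_floor hxy)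
  rw [← Finset.sum_subset hsub]
  · refine Finset.sum_congr rfl fun n hn => ?_
    rw [Finset.mem_Icc] at hn
    have h1 : (n : ℝ) ≤ x := (Nat.le_floor_iff hx.le).1 hn.2
    have h2 : (0 : ℝ) < n := by exact_mod_cast hn.1
    have h3 : 0 ≤ Real.log (x / n) := Real.log_nonneg (by rw [le_div_iff₀ h2]; linarith)
    rw [max_eq_right h3]
  · intro n hn hn'
    rw [Finset.mem_Icc] at hn hn'
    have h1 : ⌊x⌋₊ < n := by
      by_contra hcon
      exact hn' ⟨hn.1, by omega⟩
    have h2 : x < n := (Nat.floor_lt hx.le).1 h1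
    have h4 : (0 : ℝ) < n := by exact_mod_cast hn.1
    have h3 : Real.log (x / n) ≤ 0 := Real.log_nonpos (by positivity) (by
      rw [div_le_iff₀ h4]; linarith)
    rw [max_eq_left h3]
    simp

lemma tent (s : ℝ) : max 0 (1 / 2 - |s - 1 / 2|) =
    max 0 (1 - s) - 2 * max 0 (1 / 2 - s) + max 0 (-s) := by
  rcases le_total s 0 with h | h
  · rw [abs_of_nonpos (by linarith), max_eq_left (by linarith), max_eq_right (by linarith),
      max_eq_right (by linarith), max_eq_right (by linarith)]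
    ring
  · rcases le_total s (1 / 2) with h1 | h1
    · rw [abs_of_nonpos (by linarith), max_eq_right (by linarith), max_eq_right (by linarith),
        max_eq_right (by linarith), max_eq_left (by linarith)]
      ring
    · rcases le_total s 1 with h2 | h2
      · rw [abs_of_nonneg (by linarith), max_eq_right (by linarith), max_eq_right (by linarith),
          max_eq_left (by linarith), max_eq_left (by linarith)]
        ring
      · rw [abs_of_nonneg (by linarith), max_eq_left (by linarith), max_eq_left (by linarith),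
          max_eq_left (by linarith), max_eq_left (by linarith)]
        ring

lemma PP_eq (c : ℕ → ℂ) (z : ℝ) (hz : 0 < z) :
    PP c z = PL c (Real.exp 1 * z) - 2 * PL c (Real.exp (1 / 2) * z) + PL c z := by
  have he : Real.exp 1 ≤ 3 := by have := Real.exp_one_lt_d9; linarith
  have he2 : Real.exp (1 / 2) ≤ Real.exp 1 := Real.exp_le_exp.2 (by norm_num)
  have h1 : 0 < Real.exp 1 := Real.exp_pos _
  have h2 : 0 < Real.exp (1 / 2 : ℝ) := Real.exp_pos _
  rw [PL_eq c (Real.exp 1 * z) (3 * z) (by positivity) (by nlinarith),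
    PL_eq c (Real.exp (1 / 2) * z) (3 * z) (by positivity) (by nlinarith),
    PL_eq c z (3 * z) hz (by linarith), Finset.mul_sum, ← Finset.sum_sub_distrib,
    ← Finset.sum_add_distrib]
  unfold PP
  refine Finset.sum_congr rfl fun n hn => ?_
  rw [Finset.mem_Icc] at hn
  have hn0 : (0 : ℝ) < n := by exact_mod_cast hn.1
  have e0 : Real.log (n / z) = Real.log n - Real.log z := Real.log_div hn0.ne' hz.ne'
  have e1 : Real.log (Real.exp 1 * z / n) = 1 - Real.log (n / z) := by
    rw [Real.log_div (by positivity) hn0.ne', Real.log_mul h1.ne' hz.ne', Real.log_exp, e0]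
    ring
  have e2 : Real.log (Real.exp (1 / 2) * z / n) = 1 / 2 - Real.log (n / z) := by
    rw [Real.log_div (by positivity) hn0.ne', Real.log_mul h2.ne' hz.ne', Real.log_exp, e0]
    ring
  have e3 : Real.log (z / n) = -Real.log (n / z) := by
    rw [Real.log_div hz.ne' hn0.ne', e0]
    ring
  rw [e1, e2, e3]
  unfold Phi
  rw [tent]
  push_cast
  ring

theorem t_TEL : S_TEL := by
  intro c x ε B K hK hε hB hx hPP hPL
  obtain ⟨k, rfl⟩ : ∃ k, K = k + 1 := ⟨K - 1, by omega⟩
  set E : ℝ := Real.exp (-(((k + 1 : ℕ) : ℝ) / 2)) with hE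
  have hEpos : 0 < E := Real.exp_pos _
  have hx0 : 0 < x := by
    by_contra hcon
    push Not at hcon
    have := mul_nonpos_of_nonpos_of_nonneg hcon hEpos.le
    linarith
  -- the sequence
  set y : ℕ → ℝ := fun j => x * Real.exp (-((j : ℝ) / 2)) with hy
  have hypos : ∀ j, 0 < y j := fun j => mul_pos hx0 (Real.exp_pos _)
  have hyx : ∀ j, y j ≤ x := by
    intro j
    have h1 : Real.exp (-((j : ℝ) / 2)) ≤ 1 := Real.exp_le_one_iff.2 (by
      have : (0 : ℝ) ≤ j := Nat.cast_nonneg j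
      linarith)
    calc y j = x * Real.exp (-((j : ℝ) / 2)) := rfl
      _ ≤ x * 1 := by gcongr
      _ = x := mul_one x
  have hyK : ∀ j, j ≤ k + 1 → x * E ≤ y j := by
    intro j hj
    have h1 : (j : ℝ) ≤ ((k + 1 : ℕ) : ℝ) := by exact_mod_cast hj
    have h2 : E ≤ Real.exp (-((j : ℝ) / 2)) := Real.exp_le_exp.2 (by linarith)
    exact mul_le_mul_of_nonneg_left h2 hx0.le
  have hstep : ∀ j, Real.exp (1 / 2) * y (j + 1) = y j := by
    intro j
    have : Real.exp (-((j : ℝ) / 2)) = Real.exp (1 / 2) * Real.exp (-(((j + 1 : ℕ) : ℝ) / 2)) := by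
      rw [← Real.exp_add]
      congr 1
      push_cast
      ring
    simp only [hy]
    rw [this]
    ring
  have hstep2 : ∀ j, Real.exp 1 * y (j + 2) = y j := by
    intro j
    have : Real.exp (-((j : ℝ) / 2)) = Real.exp 1 * Real.exp (-(((j + 2 : ℕ) : ℝ) / 2)) := by
      rw [← Real.exp_add]
      congr 1
      push_cast
      ring
    simp only [hy]
    rw [this]
    ring
  have hPLj : ∀ j, j ≤ k + 1 → ‖PL c (y j)‖ ≤ B * y j := fun j hj =>
    hPL (y j) (hx.trans (hyK j hj)) (hyx j)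
  have hsecond : ∀ j, j + 2 ≤ k + 1 →
      ‖PL c (y j) - 2 * PL c (y (j + 1)) + PL c (y (j + 2))‖ ≤ ε * x := by
    intro j hj
    have h1 := PP_eq c (y (j + 2)) (hypos _)
    have e2 : Real.exp (1 / 2) * y (j + 2) = y (j + 1) := hstep (j + 1)
    rw [hstep2, e2] at h1
    rw [← h1]
    refine (hPP (y (j + 2)) (hyK _ hj) (hyx _)).trans ?_
    exact mul_le_mul_of_nonneg_left (hyx _) hε
  have hlast : ‖PL c (y k) - PL c (y (k + 1))‖ ≤ 4 * B * (x * E) := by
    have h1 := hPLj k (by omega)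
    have h2 := hPLj (k + 1) le_rfl
    have h3 : y (k + 1) = x * E := rfl
    have h4 : y k = Real.exp (1 / 2) * (x * E) := by rw [← h3, hstep]
    have he : Real.exp (1 / 2) ≤ 3 :=
      (Real.exp_le_exp.2 (by norm_num : (1 / 2 : ℝ) ≤ 1)).trans (by
        have := Real.exp_one_lt_d9; linarith)
    have hxE : 0 ≤ B * (x * E) := by positivity
    calc ‖PL c (y k) - PL c (y (k + 1))‖ ≤ ‖PL c (y k)‖ + ‖PL c (y (k + 1))‖ := norm_sub_le _ _
      _ ≤ B * y k + B * y (k + 1) := by linarith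
      _ = Real.exp (1 / 2) * (B * (x * E)) + B * (x * E) := by rw [h4, h3]; ring
      _ ≤ 3 * (B * (x * E)) + B * (x * E) := by gcongr
      _ = 4 * B * (x * E) := by ring
  have hT := tele (fun j => PL c (y j)) k (ε * x) (4 * B * (x * E)) (by positivity) (by positivity)
    hsecond hlast
  have hy0 : y 0 = x := by simp [hy]
  have hK1 := hPLj (k + 1) le_rfl
  have h3 : y (k + 1) = x * E := rfl
  rw [h3] at hK1
  simp only [hy0, h3] at hT
  have hfin : ‖PL c x‖ ≤ ‖PL c x - PL c (x * E)‖ + ‖PL c (x * E)‖ := by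
    have := norm_add_le (PL c x - PL c (x * E)) (PL c (x * E))
    rwa [sub_add_cancel] at this
  calc ‖PL c x‖ ≤ ‖PL c x - PL c (x * E)‖ + ‖PL c (x * E)‖ := hfin
    _ ≤ ((k + 1 : ℕ) : ℝ) * (4 * B * (x * E) + ((k + 1 : ℕ) : ℝ) * (ε * x)) + B * (x * E) := by
      linarith
    _ = (4 * ((k + 1 : ℕ) : ℝ) + 1) * B * x * E + ((k + 1 : ℕ) : ℝ) ^ 2 * ε * x := by ring

end Pool.Agent.N457.SP
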